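import Mathlib
import Pool.Agent.Lib.P67f173.Gen

set_option autoImplicit false

namespace Pool.Agent.Results.MP_67f173_co.UniformPolynomialBound

universe u v

/-- `H` is a minor of depth `s` of `G`: there are pairwise disjoint branch sets `B i`, one for each
vertex `i` of `H`, each with a centre `x` from which every vertex of `B i` is reached by a path of
length at most `s` inside `B i`, and the branch sets of adjacent vertices of `H` are joined by an
edge of `G`. -/
def IsDepthMinor {W : Type v} {V : Type u} (s : ℕ) (H : SimpleGraph W) (G : SimpleGraph V) : Prop :=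
  ∃ B : W → Set V, (∀ i j, i ≠ j → Disjoint (B i) (B j)) ∧
    (∀ i, ∃ x ∈ B i, ∀ y ∈ B i, ∃ p : G.Walk x y, p.IsPath ∧ p.length ≤ s ∧
      ∀ z ∈ p.support, z ∈ B i) ∧
    ∀ i j, H.Adj i j → ∃ a ∈ B i, ∃ b ∈ B j, G.Adj a b

/-- The average degree `2 |E(H)| / |V(H)|`. -/
noncomputable def averageDegree {W : Type v} (H : SimpleGraph W) : ℝ :=
  2 * (H.edgeSet.ncard : ℝ) / Nat.card W

/-- The vertex `v` and the vertices strongly `r`-reachable from `v`: `u` is before `v` and there is
a path of length at most `r` from `u` to `v` all of whose internal vertices are after `v`. The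
order of the vertices is that of their numbers `σ`. -/
def strongReach {V : Type u} (G : SimpleGraph V) (σ : V → ℕ) (r : ℕ) (v : V) : Set V :=
  {u | u = v ∨ (σ u < σ v ∧ ∃ p : G.Walk u v, p.IsPath ∧ p.length ≤ r ∧
    ∀ z ∈ p.support, z ≠ u → z ≠ v → σ v < σ z)}

/-- The strong `r`-coloring number `scol_r(G)`. -/
noncomputable def scol {V : Type u} (r : ℕ) (G : SimpleGraph V) : ℕ :=
  sInf {m : ℕ | ∃ σ : V → ℕ, Function.Injective σ ∧ ∀ v, (strongReach G σ r v).ncard ≤ m}

/-- For every real polynomial `p` there are constants `c, d > 0` such that every finite graph `G`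
all of whose minors of depth `s` have average degree at most `p(s)`, for every `s ≥ 0`, satisfies
`scol_r(G) ≤ c r^d` for all `r ≥ 1`. -/
theorem result (p : Polynomial ℝ) : ∃ c d : ℕ, 0 < c ∧ 0 < d ∧
    ∀ (V : Type u) [Finite V] (G : SimpleGraph V),
      (∀ (s : ℕ) (W : Type) [Finite W] [Nonempty W] (H : SimpleGraph W),
        IsDepthMinor s H G → averageDegree H ≤ p.eval (s : ℝ)) →
      ∀ r : ℕ, 1 ≤ r → scol r G ≤ c * r ^ d := by
  obtain ⟨c, d, hc, hd, h⟩ := P67.main_poly.{u} p
  refine ⟨c, d, hc, hd, ?_⟩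
  intro V _ G hG r hr
  refine Nat.sInf_le (h V G ?_ r hr)
  intro s m H B hm h1 h2 h3
  have : Nonempty (Fin m) := ⟨⟨0, hm⟩⟩
  have h4 := hG s (Fin m) H ⟨B, h1, h2, h3⟩
  rwa [averageDegree, Nat.card_eq_fintype_card, Fintype.card_fin] at h4

end Pool.Agent.Results.MP_67f173_co.UniformPolynomialBound
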